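import Mathlib
import Pool.Agent.H86.Hessenberg

/-!
# A Hessenberg pair whose eigenspace dimensions do not match

On `K^5` (any field `K` with `2 ≠ 0`) we exhibit an irreducible Hessenberg pair with `d = δ = 2`
and `dim V_0 = 2 ≠ 1 = dim V*_0`.
-/

namespace Pool.Agent.Results.MP_d2cf4a_al.Counterexample

open Module Pool.Agent.H86.Hessenberg

variable (K : Type*) [Field K]

/-- `A (v₀, v₁, v₂, v₃, v₄) = (2v₀, v₀ + v₁, v₂, v₁, v₂)`. -/
def A : Module.End K (Fin 5 → K) where
  toFun v := ![2 * v 0, v 0 + v 1, v 2, v 1, v 2]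
  map_add' v w := by
    ext i
    fin_cases i <;> simp <;> ring
  map_smul' c v := by
    ext i
    fin_cases i <;> simp <;> ring

/-- `A* (v₀, v₁, v₂, v₃, v₄) = (v₂, v₁ + v₄, v₂ + v₃, 2v₃, 2v₄)`. -/
def As : Module.End K (Fin 5 → K) where
  toFun v := ![v 2, v 1 + v 4, v 2 + v 3, 2 * v 3, 2 * v 4]
  map_add' v w := by
    ext i
    fin_cases i <;> simp <;> ring
  map_smul' c v := by
    ext i
    fin_cases i <;> simp <;> ring

variable {K}

lemma A_apply (v : Fin 5 → K) : A K v = ![2 * v 0, v 0 + v 1, v 2, v 1, v 2] := rfl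

lemma As_apply (v : Fin 5 → K) :
    As K v = ![v 2, v 1 + v 4, v 2 + v 3, 2 * v 3, 2 * v 4] := rfl

lemma mem_A (μ : K) (v : Fin 5 → K) : v ∈ (A K).eigenspace μ ↔
    2 * v 0 = μ * v 0 ∧ v 0 + v 1 = μ * v 1 ∧ v 2 = μ * v 2 ∧ v 1 = μ * v 3 ∧ v 2 = μ * v 4 := by
  rw [Module.End.mem_eigenspace_iff, A_apply]
  constructor
  · intro h
    exact ⟨by simpa using congrFun h 0, by simpa using congrFun h 1, by simpa using congrFun h 2,
      by simpa using congrFun h 3, by simpa using congrFun h 4⟩
  · rintro ⟨h0, h1, h2, h3, h4⟩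
    ext i
    fin_cases i
    · simpa using h0
    · simpa using h1
    · simpa using h2
    · simpa using h3
    · simpa using h4

lemma mem_As (μ : K) (v : Fin 5 → K) : v ∈ (As K).eigenspace μ ↔
    v 2 = μ * v 0 ∧ v 1 + v 4 = μ * v 1 ∧ v 2 + v 3 = μ * v 2 ∧ 2 * v 3 = μ * v 3 ∧
      2 * v 4 = μ * v 4 := by
  rw [Module.End.mem_eigenspace_iff, As_apply]
  constructor
  · intro h
    exact ⟨by simpa using congrFun h 0, by simpa using congrFun h 1, by simpa using congrFun h 2,
      by simpa using congrFun h 3, by simpa using congrFun h 4⟩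
  · rintro ⟨h0, h1, h2, h3, h4⟩
    ext i
    fin_cases i
    · simpa using h0
    · simpa using h1
    · simpa using h2
    · simpa using h3
    · simpa using h4

/-! ### Bases of the eigenspaces -/

/-- parametrisation of `V_0` -/
def fA0 : (Fin 2 → K) →ₗ[K] (Fin 5 → K) where
  toFun c := ![0, 0, 0, c 0, c 1]
  map_add' v w := by ext i; fin_cases i <;> simp
  map_smul' c v := by ext i; fin_cases i <;> simp

/-- parametrisation of `V_1` -/
def fA1 : (Fin 2 → K) →ₗ[K] (Fin 5 → K) where
  toFun c := ![0, c 0, c 1, c 0, c 1]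
  map_add' v w := by ext i; fin_cases i <;> simp
  map_smul' c v := by ext i; fin_cases i <;> simp

/-- parametrisation of `V_2` -/
def fA2 : (Fin 1 → K) →ₗ[K] (Fin 5 → K) where
  toFun c := ![2 * c 0, 2 * c 0, 0, c 0, 0]
  map_add' v w := by ext i; fin_cases i <;> simp <;> ring
  map_smul' c v := by ext i; fin_cases i <;> simp <;> ring

/-- parametrisation of `V*_0` -/
def fS0 : (Fin 1 → K) →ₗ[K] (Fin 5 → K) where
  toFun c := ![c 0, 0, 0, 0, 0]
  map_add' v w := by ext i; fin_cases i <;> simp
  map_smul' c v := by ext i; fin_cases i <;> simp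

/-- parametrisation of `V*_1` -/
def fS1 : (Fin 2 → K) →ₗ[K] (Fin 5 → K) where
  toFun c := ![c 0, c 1, c 0, 0, 0]
  map_add' v w := by ext i; fin_cases i <;> simp
  map_smul' c v := by ext i; fin_cases i <;> simp

/-- parametrisation of `V*_2` -/
def fS2 : (Fin 2 → K) →ₗ[K] (Fin 5 → K) where
  toFun c := ![c 0, c 1, 2 * c 0, 2 * c 0, c 1]
  map_add' v w := by ext i; fin_cases i <;> simp <;> ring
  map_smul' c v := by ext i; fin_cases i <;> simp <;> ring

lemma finrank_of_param {k : ℕ} (f : (Fin k → K) →ₗ[K] (Fin 5 → K)) (S : Submodule K (Fin 5 → K))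
    (hinj : Function.Injective f) (hS : LinearMap.range f = S) : Module.finrank K S = k := by
  rw [← hS, LinearMap.finrank_range_of_inj hinj]
  simp

lemma range_fA0 (h2 : (2 : K) ≠ 0) : LinearMap.range (fA0 (K := K)) = (A K).eigenspace 0 := by
  ext v
  rw [LinearMap.mem_range, mem_A]
  constructor
  · rintro ⟨c, rfl⟩
    simp [fA0]
  · rintro ⟨h0, h1, h3, h4, h5⟩
    have e0 : v 0 = 0 := by
      have : 2 * v 0 = 0 := by linear_combination h0
      simpa [h2] using this
    refine ⟨![v 3, v 4], ?_⟩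
    ext i
    fin_cases i
    · simp [fA0, e0]
    · simp only [fA0, LinearMap.coe_mk, AddHom.coe_mk]
      simp
      linear_combination -h4
    · simp only [fA0, LinearMap.coe_mk, AddHom.coe_mk]
      simp
      linear_combination -h5
    · simp [fA0]
    · simp [fA0]

lemma range_fA1 : LinearMap.range (fA1 (K := K)) = (A K).eigenspace 1 := by
  ext v
  rw [LinearMap.mem_range, mem_A]
  constructor
  · rintro ⟨c, rfl⟩
    simp [fA1]
  · rintro ⟨h0, h1, h3, h4, h5⟩
    refine ⟨![v 1, v 2], ?_⟩
    ext i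
    fin_cases i
    · simp only [fA1, LinearMap.coe_mk, AddHom.coe_mk]
      simp
      linear_combination -h0
    · simp [fA1]
    · simp [fA1]
    · simp only [fA1, LinearMap.coe_mk, AddHom.coe_mk]
      simp
      linear_combination h4
    · simp only [fA1, LinearMap.coe_mk, AddHom.coe_mk]
      simp
      linear_combination h5

lemma range_fA2 (h2 : (2 : K) ≠ 0) : LinearMap.range (fA2 (K := K)) = (A K).eigenspace 2 := by
  ext v
  rw [LinearMap.mem_range, mem_A]
  constructor
  · rintro ⟨c, rfl⟩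
    simp [fA2]
    ring
  · rintro ⟨h0, h1, h3, h4, h5⟩
    have e2 : v 2 = 0 := by linear_combination -h3
    have e4 : v 4 = 0 := by
      have : 2 * v 4 = 0 := by linear_combination -h5 + e2
      simpa [h2] using this
    refine ⟨![v 3], ?_⟩
    ext i
    fin_cases i
    · simp only [fA2, LinearMap.coe_mk, AddHom.coe_mk]
      simp
      linear_combination -h4 - h1
    · simp only [fA2, LinearMap.coe_mk, AddHom.coe_mk]
      simp
      linear_combination -h4
    · simp [fA2, e2]
    · simp [fA2]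
    · simp [fA2, e4]

lemma range_fS0 (h2 : (2 : K) ≠ 0) : LinearMap.range (fS0 (K := K)) = (As K).eigenspace 0 := by
  ext v
  rw [LinearMap.mem_range, mem_As]
  constructor
  · rintro ⟨c, rfl⟩
    simp [fS0]
  · rintro ⟨h0, h1, h3, h4, h5⟩
    have e4 : v 4 = 0 := by
      have : 2 * v 4 = 0 := by linear_combination h5
      simpa [h2] using this
    refine ⟨![v 0], ?_⟩
    ext i
    fin_cases i
    · simp [fS0]
    · simp only [fS0, LinearMap.coe_mk, AddHom.coe_mk]
      simp
      linear_combination -h1 + e4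
    · simp only [fS0, LinearMap.coe_mk, AddHom.coe_mk]
      simp
      linear_combination -h0
    · simp only [fS0, LinearMap.coe_mk, AddHom.coe_mk]
      simp
      linear_combination -h3 + h0
    · simp [fS0, e4]

lemma range_fS1 : LinearMap.range (fS1 (K := K)) = (As K).eigenspace 1 := by
  ext v
  rw [LinearMap.mem_range, mem_As]
  constructor
  · rintro ⟨c, rfl⟩
    simp [fS1]
  · rintro ⟨h0, h1, h3, h4, h5⟩
    refine ⟨![v 0, v 1], ?_⟩
    ext i
    fin_cases i
    · simp [fS1]
    · simp [fS1]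
    · simp only [fS1, LinearMap.coe_mk, AddHom.coe_mk]
      simp
      linear_combination -h0
    · simp only [fS1, LinearMap.coe_mk, AddHom.coe_mk]
      simp
      linear_combination -h4
    · simp only [fS1, LinearMap.coe_mk, AddHom.coe_mk]
      simp
      linear_combination -h5

lemma range_fS2 : LinearMap.range (fS2 (K := K)) = (As K).eigenspace 2 := by
  ext v
  rw [LinearMap.mem_range, mem_As]
  constructor
  · rintro ⟨c, rfl⟩
    simp [fS2]
    constructor <;> ring
  · rintro ⟨h0, h1, h3, h4, h5⟩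
    refine ⟨![v 0, v 1], ?_⟩
    ext i
    fin_cases i
    · simp [fS2]
    · simp [fS2]
    · simp only [fS2, LinearMap.coe_mk, AddHom.coe_mk]
      simp
      linear_combination -h0
    · simp only [fS2, LinearMap.coe_mk, AddHom.coe_mk]
      simp
      linear_combination -h0 - h3
    · simp only [fS2, LinearMap.coe_mk, AddHom.coe_mk]
      simp
      linear_combination -h1

lemma finrank_A0 (h2 : (2 : K) ≠ 0) : Module.finrank K ((A K).eigenspace 0) = 2 := by
  apply finrank_of_param fA0 _ _ (range_fA0 h2)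
  intro c c' h
  have h3 := congrFun h 3
  have h4 := congrFun h 4
  ext i
  fin_cases i
  · simpa [fA0] using h3
  · simpa [fA0] using h4

lemma finrank_A1 : Module.finrank K ((A K).eigenspace 1) = 2 := by
  apply finrank_of_param fA1 _ _ range_fA1
  intro c c' h
  have h3 := congrFun h 3
  have h4 := congrFun h 4
  ext i
  fin_cases i
  · simpa [fA1] using h3
  · simpa [fA1] using h4

lemma finrank_A2 (h2 : (2 : K) ≠ 0) : Module.finrank K ((A K).eigenspace 2) = 1 := by
  apply finrank_of_param fA2 _ _ (range_fA2 h2)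
  intro c c' h
  have h3 := congrFun h 3
  ext i
  fin_cases i
  simpa [fA2] using h3

lemma finrank_S0 (h2 : (2 : K) ≠ 0) : Module.finrank K ((As K).eigenspace 0) = 1 := by
  apply finrank_of_param fS0 _ _ (range_fS0 h2)
  intro c c' h
  have h3 := congrFun h 0
  ext i
  fin_cases i
  simpa [fS0] using h3

lemma finrank_S1 : Module.finrank K ((As K).eigenspace 1) = 2 := by
  apply finrank_of_param fS1 _ _ range_fS1
  intro c c' h
  have h3 := congrFun h 0
  have h4 := congrFun h 1
  ext i
  fin_cases i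
  · simpa [fS1] using h3
  · simpa [fS1] using h4

lemma finrank_S2 : Module.finrank K ((As K).eigenspace 2) = 2 := by
  apply finrank_of_param fS2 _ _ range_fS2
  intro c c' h
  have h3 := congrFun h 0
  have h4 := congrFun h 1
  ext i
  fin_cases i
  · simpa [fS2] using h3
  · simpa [fS2] using h4

/-! ### The eigenspaces span -/

/-- The three eigenvalues `0, 1, 2`. -/
def θ : Fin (2 + 1) → K := ![0, 1, 2]

lemma iSup_A (h2 : (2 : K) ≠ 0) : ⨆ j : Fin (2 + 1), (A K).eigenspace (θ j) = ⊤ := by
  rw [eq_top_iff]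
  intro v _
  have ha : ![0, 0, 0, v 3 - (v 1 - v 0) - v 0 / 2, v 4 - v 2] ∈ (A K).eigenspace (θ (0 : Fin 3)) := by
    change _ ∈ (A K).eigenspace 0
    rw [mem_A]; simp
  have hb : ![0, v 1 - v 0, v 2, v 1 - v 0, v 2] ∈ (A K).eigenspace (θ (1 : Fin 3)) := by
    change _ ∈ (A K).eigenspace 1
    rw [mem_A]; simp
  have hc : ![v 0, v 0, 0, v 0 / 2, 0] ∈ (A K).eigenspace (θ (2 : Fin 3)) := by
    change _ ∈ (A K).eigenspace 2
    rw [mem_A]
    simp
    constructor
    · ring
    · field_simp
  have hv : v = ![0, 0, 0, v 3 - (v 1 - v 0) - v 0 / 2, v 4 - v 2]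
      + ![0, v 1 - v 0, v 2, v 1 - v 0, v 2] + ![v 0, v 0, 0, v 0 / 2, 0] := by
    ext i
    fin_cases i <;> simp
    ring
  rw [hv]
  exact Submodule.add_mem _ (Submodule.add_mem _ (Submodule.mem_iSup_of_mem _ ha)
    (Submodule.mem_iSup_of_mem _ hb)) (Submodule.mem_iSup_of_mem _ hc)

lemma iSup_As (h2 : (2 : K) ≠ 0) : ⨆ j : Fin (2 + 1), (As K).eigenspace (θ j) = ⊤ := by
  rw [eq_top_iff]
  intro v _
  have ha : ![v 0 - v 3 / 2 - (v 2 - v 3), 0, 0, 0, 0] ∈ (As K).eigenspace (θ (0 : Fin 3)) := by
    change _ ∈ (As K).eigenspace 0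
    rw [mem_As]; simp
  have hb : ![v 2 - v 3, v 1 - v 4, v 2 - v 3, 0, 0] ∈ (As K).eigenspace (θ (1 : Fin 3)) := by
    change _ ∈ (As K).eigenspace 1
    rw [mem_As]; simp
  have hc : ![v 3 / 2, v 4, v 3, v 3, v 4] ∈ (As K).eigenspace (θ (2 : Fin 3)) := by
    change _ ∈ (As K).eigenspace 2
    rw [mem_As]
    simp
    refine ⟨?_, ?_, ?_⟩
    · field_simp
    · ring
    · ring
  have hv : v = ![v 0 - v 3 / 2 - (v 2 - v 3), 0, 0, 0, 0]
      + ![v 2 - v 3, v 1 - v 4, v 2 - v 3, 0, 0] + ![v 3 / 2, v 4, v 3, v 3, v 4] := by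
    ext i
    fin_cases i <;> simp
  rw [hv]
  exact Submodule.add_mem _ (Submodule.add_mem _ (Submodule.mem_iSup_of_mem _ ha)
    (Submodule.mem_iSup_of_mem _ hb)) (Submodule.mem_iSup_of_mem _ hc)

lemma θ_inj (h2 : (2 : K) ≠ 0) : Function.Injective (θ (K := K)) := by
  have h12 : (1 : K) ≠ 2 := by
    intro h
    apply one_ne_zero (α := K)
    linear_combination -h
  intro i j hij
  fin_cases i <;> fin_cases j <;> simp [θ] at hij ⊢
  · exact absurd hij.symm h2
  · exact absurd hij h12
  · exact absurd hij h2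
  · exact absurd hij.symm h12

/-! ### Irreducibility -/

lemma irr (W : Submodule K (Fin 5 → K)) (hA : W.map (A K) ≤ W) (hS : W.map (As K) ≤ W) :
    W = ⊥ ∨ W = ⊤ := by
  have hA' : ∀ v ∈ W, A K v ∈ W := fun v hv => hA (Submodule.mem_map_of_mem hv)
  have hS' : ∀ v ∈ W, As K v ∈ W := fun v hv => hS (Submodule.mem_map_of_mem hv)
  by_cases h0 : ![1, 0, 0, 0, 0] ∈ W
  · right
    have e1 : (![0, 1, 0, 0, 0] : Fin 5 → K) ∈ W := by
      have := W.sub_mem (hA' _ h0) (W.smul_mem (2 : K) h0)
      rw [A_apply] at this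
      convert this using 1
      ext i; fin_cases i <;> simp
    have e3 : (![0, 0, 0, 1, 0] : Fin 5 → K) ∈ W := by
      have := W.sub_mem (hA' _ e1) e1
      rw [A_apply] at this
      convert this using 1
      ext i; fin_cases i <;> simp
    have e2 : (![0, 0, 1, 0, 0] : Fin 5 → K) ∈ W := by
      have := W.sub_mem (hS' _ e3) (W.smul_mem (2 : K) e3)
      rw [As_apply] at this
      convert this using 1
      ext i; fin_cases i <;> simp
    have e4 : (![0, 0, 0, 0, 1] : Fin 5 → K) ∈ W := by
      have := W.sub_mem (hA' _ e2) e2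
      rw [A_apply] at this
      convert this using 1
      ext i; fin_cases i <;> simp
    rw [eq_top_iff]
    intro v _
    have hv : v = v 0 • ![1, 0, 0, 0, 0] + v 1 • ![0, 1, 0, 0, 0] + v 2 • ![0, 0, 1, 0, 0]
        + v 3 • ![0, 0, 0, 1, 0] + v 4 • ![0, 0, 0, 0, 1] := by
      ext i; fin_cases i <;> simp
    rw [hv]
    exact W.add_mem (W.add_mem (W.add_mem (W.add_mem (W.smul_mem _ h0) (W.smul_mem _ e1))
      (W.smul_mem _ e2)) (W.smul_mem _ e3)) (W.smul_mem _ e4)
  · left
    -- the functional `φ v = 2 v₀ - 2 v₂ + v₃` vanishes on `W`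
    have hφ : ∀ v ∈ W, 2 * v 0 - 2 * v 2 + v 3 = 0 := by
      intro v hv
      by_contra hne
      apply h0
      -- `(A* - 1)(A* - 2) v = φ(v) u₀`
      have h1 : (As K v - (2 : K) • v) ∈ W := W.sub_mem (hS' _ hv) (W.smul_mem _ hv)
      have h2 := W.sub_mem (hS' _ h1) h1
      have h3 : As K (As K v - (2 : K) • v) - (As K v - (2 : K) • v)
          = (2 * v 0 - 2 * v 2 + v 3) • ![1, 0, 0, 0, 0] := by
        rw [As_apply, As_apply]
        ext i
        fin_cases i <;> (simp [Matrix.vecHead, Matrix.vecTail]; try ring)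
      rw [h3] at h2
      exact (W.smul_mem_iff hne).mp h2
    rw [Submodule.eq_bot_iff]
    intro v hv
    have q1 := hφ _ hv
    have q2 := hφ _ (hA' _ hv)
    have q3 := hφ _ (hA' _ (hA' _ hv))
    have q4 := hφ _ (hA' _ (hS' _ hv))
    have q5 := hφ _ (hA' _ (hS' _ (hA' _ hv)))
    have q6 := hφ _ (hA' _ (hS' _ (hA' _ (hS' _ hv))))
    simp only [A_apply, As_apply] at q2 q3 q4 q5 q6
    simp at q2 q3 q4 q5 q6
    have z0 : v 0 = 0 := by
      linear_combination 17 * (q3 - q2) + 2 * ((q6 + q4 - q1) - 8 * (q2 + q5))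
    have z2 : v 2 = 0 := by linear_combination q2 + q5 - 5 * z0
    have z1 : v 1 = 0 := by linear_combination q2 - 4 * z0 + 2 * z2
    have z3 : v 3 = 0 := by linear_combination q1 - 2 * z0 + 2 * z2
    have z4 : v 4 = 0 := by linear_combination q4 - z1 - 2 * z2 + 2 * z3
    ext i
    fin_cases i
    · exact z0
    · exact z1
    · exact z2
    · exact z3
    · exact z4

/-! ### The pair -/

lemma eig_iff_A (h2 : (2 : K) ≠ 0) (μ : K) :
    (A K).HasEigenvalue μ ↔ μ ∈ Set.range (θ (K := K)) := by
  constructor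
  · intro h
    by_contra hμ
    have hμ0 : μ ≠ 0 := fun e => hμ ⟨0, by simp [θ, e]⟩
    have hμ1 : μ ≠ 1 := fun e => hμ ⟨1, by simp [θ, e]⟩
    have hμ2 : μ ≠ 2 := fun e => hμ ⟨2, by simp [θ, e]⟩
    obtain ⟨v, hv⟩ := h.exists_hasEigenvector
    apply hv.2
    obtain ⟨h0, h1, h3, h4, h5⟩ := (mem_A μ v).mp hv.1
    have z0 : v 0 = 0 := by
      have : (μ - 2) * v 0 = 0 := by linear_combination -h0
      rcases mul_eq_zero.mp this with h | h
      · exact absurd (by linear_combination h) hμ2
      · exact h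
    have z1 : v 1 = 0 := by
      have : (μ - 1) * v 1 = 0 := by linear_combination -h1 + z0
      rcases mul_eq_zero.mp this with h | h
      · exact absurd (by linear_combination h) hμ1
      · exact h
    have z2 : v 2 = 0 := by
      have : (μ - 1) * v 2 = 0 := by linear_combination -h3
      rcases mul_eq_zero.mp this with h | h
      · exact absurd (by linear_combination h) hμ1
      · exact h
    have z3 : v 3 = 0 := by
      have : μ * v 3 = 0 := by linear_combination -h4 + z1
      rcases mul_eq_zero.mp this with h | h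
      · exact absurd h hμ0
      · exact h
    have z4 : v 4 = 0 := by
      have : μ * v 4 = 0 := by linear_combination -h5 + z2
      rcases mul_eq_zero.mp this with h | h
      · exact absurd h hμ0
      · exact h
    ext i
    fin_cases i
    · exact z0
    · exact z1
    · exact z2
    · exact z3
    · exact z4
  · rintro ⟨i, rfl⟩ h
    fin_cases i
    · have h' : (A K).eigenspace 0 = ⊥ := h
      have := finrank_A0 h2
      rw [h', finrank_bot] at this
      omega
    · have h' : (A K).eigenspace 1 = ⊥ := h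
      have := finrank_A1 (K := K)
      rw [h', finrank_bot] at this
      omega
    · have h' : (A K).eigenspace 2 = ⊥ := h
      have := finrank_A2 h2
      rw [h', finrank_bot] at this
      omega

lemma eig_iff_As (h2 : (2 : K) ≠ 0) (μ : K) :
    (As K).HasEigenvalue μ ↔ μ ∈ Set.range (θ (K := K)) := by
  constructor
  · intro h
    by_contra hμ
    have hμ0 : μ ≠ 0 := fun e => hμ ⟨0, by simp [θ, e]⟩
    have hμ1 : μ ≠ 1 := fun e => hμ ⟨1, by simp [θ, e]⟩
    have hμ2 : μ ≠ 2 := fun e => hμ ⟨2, by simp [θ, e]⟩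
    obtain ⟨v, hv⟩ := h.exists_hasEigenvector
    apply hv.2
    obtain ⟨h0, h1, h3, h4, h5⟩ := (mem_As μ v).mp hv.1
    have z3 : v 3 = 0 := by
      have : (μ - 2) * v 3 = 0 := by linear_combination -h4
      rcases mul_eq_zero.mp this with h | h
      · exact absurd (by linear_combination h) hμ2
      · exact h
    have z4 : v 4 = 0 := by
      have : (μ - 2) * v 4 = 0 := by linear_combination -h5
      rcases mul_eq_zero.mp this with h | h
      · exact absurd (by linear_combination h) hμ2
      · exact h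
    have z2 : v 2 = 0 := by
      have : (μ - 1) * v 2 = 0 := by linear_combination -h3 + z3
      rcases mul_eq_zero.mp this with h | h
      · exact absurd (by linear_combination h) hμ1
      · exact h
    have z1 : v 1 = 0 := by
      have : (μ - 1) * v 1 = 0 := by linear_combination -h1 + z4
      rcases mul_eq_zero.mp this with h | h
      · exact absurd (by linear_combination h) hμ1
      · exact h
    have z0 : v 0 = 0 := by
      have : μ * v 0 = 0 := by linear_combination -h0 + z2
      rcases mul_eq_zero.mp this with h | h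
      · exact absurd h hμ0
      · exact h
    ext i
    fin_cases i
    · exact z0
    · exact z1
    · exact z2
    · exact z3
    · exact z4
  · rintro ⟨i, rfl⟩ h
    fin_cases i
    · have h' : (As K).eigenspace 0 = ⊥ := h
      have := finrank_S0 h2
      rw [h', finrank_bot] at this
      omega
    · have h' : (As K).eigenspace 1 = ⊥ := h
      have := finrank_S1 (K := K)
      rw [h', finrank_bot] at this
      omega
    · have h' : (As K).eigenspace 2 = ⊥ := h
      have := finrank_S2 (K := K)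
      rw [h', finrank_bot] at this
      omega

lemma top_of_le {S : Fin (2 + 1) → Submodule K (Fin 5 → K)} (hS : ⨆ j, S j = ⊤)
    (i : Fin (2 + 1)) (hi : 1 ≤ (i : ℕ)) (W : Submodule K (Fin 5 → K)) :
    W ≤ ⨆ j : Fin (2 + 1), ⨆ _ : (j : ℕ) ≤ (i : ℕ) + 1, S j := by
  refine le_top.trans ?_
  rw [← hS]
  refine iSup_le fun j => ?_
  exact le_iSup₂_of_le j (by omega) le_rfl

lemma isHessenbergPair (h2 : (2 : K) ≠ 0) :
    IsHessenbergPair (A K) (As K) (d := 2) (δ := 2) (θ (K := K)) (θ (K := K)) where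
  diag := by
    rw [eq_top_iff, ← iSup_A h2]
    exact iSup_le fun j => le_iSup (fun μ => (A K).eigenspace μ) (θ j)
  diag_star := by
    rw [eq_top_iff, ← iSup_As h2]
    exact iSup_le fun j => le_iSup (fun μ => (As K).eigenspace μ) (θ j)
  inj := θ_inj h2
  eig := eig_iff_A h2
  inj_star := θ_inj h2
  eig_star := eig_iff_As h2
  hess := by
    intro i
    by_cases hi : 1 ≤ (i : ℕ)
    · exact top_of_le (iSup_A h2) i hi _
    · have hi0 : i = 0 := by
        ext
        simp only [Fin.val_zero]
        omega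
      subst hi0
      rintro _ ⟨v, hv, rfl⟩
      have hv' : v ∈ (A K).eigenspace 0 := hv
      obtain ⟨h0, h1, h3, h4, h5⟩ := (mem_A 0 v).mp hv'
      have e0 : v 0 = 0 := by
        have : 2 * v 0 = 0 := by linear_combination h0
        simpa [h2] using this
      have e1 : v 1 = 0 := by linear_combination h4
      have e2 : v 2 = 0 := by linear_combination h5
      have ha : ![0, 0, 0, 2 * v 3 - v 4, 2 * v 4 - v 3] ∈ (A K).eigenspace (θ (0 : Fin 3)) := by
        change _ ∈ (A K).eigenspace 0
        rw [mem_A]; simp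
      have hb : ![0, v 4, v 3, v 4, v 3] ∈ (A K).eigenspace (θ (1 : Fin 3)) := by
        change _ ∈ (A K).eigenspace 1
        rw [mem_A]; simp
      have hdec : As K v = ![0, 0, 0, 2 * v 3 - v 4, 2 * v 4 - v 3] + ![0, v 4, v 3, v 4, v 3] := by
        rw [As_apply]
        ext i
        fin_cases i <;> simp [e1, e2]
      rw [hdec]
      refine Submodule.add_mem _ ?_ ?_
      · exact Submodule.mem_iSup_of_mem (0 : Fin 3) (Submodule.mem_iSup_of_mem (by simp) ha)
      · exact Submodule.mem_iSup_of_mem (1 : Fin 3) (Submodule.mem_iSup_of_mem (by simp) hb)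
  hess_star := by
    intro i
    by_cases hi : 1 ≤ (i : ℕ)
    · exact top_of_le (iSup_As h2) i hi _
    · have hi0 : i = 0 := by
        ext
        simp only [Fin.val_zero]
        omega
      subst hi0
      rintro _ ⟨v, hv, rfl⟩
      have hv' : v ∈ (As K).eigenspace 0 := hv
      rw [← range_fS0 h2] at hv'
      obtain ⟨c, rfl⟩ := hv'
      have ha : ![2 * c 0, 0, 0, 0, 0] ∈ (As K).eigenspace (θ (0 : Fin 3)) := by
        change _ ∈ (As K).eigenspace 0
        rw [mem_As]; simp
      have hb : ![0, c 0, 0, 0, 0] ∈ (As K).eigenspace (θ (1 : Fin 3)) := by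
        change _ ∈ (As K).eigenspace 1
        rw [mem_As]; simp
      have hdec : A K (fS0 c) = ![2 * c 0, 0, 0, 0, 0] + ![0, c 0, 0, 0, 0] := by
        rw [A_apply]
        ext i
        fin_cases i <;> simp [fS0]
      rw [hdec]
      refine Submodule.add_mem _ ?_ ?_
      · exact Submodule.mem_iSup_of_mem (0 : Fin 3) (Submodule.mem_iSup_of_mem (by simp) ha)
      · exact Submodule.mem_iSup_of_mem (1 : Fin 3) (Submodule.mem_iSup_of_mem (by simp) hb)
  irr := irr

/-- **Negative answer to Q1.**  Over every field `K` in which `2 ≠ 0` there is a pair `A, A*` on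
`K^5` satisfying conditions 1-4, with `d = δ = 2` and eigenvalue orderings `0, 1, 2` for both maps,
whose eigenspaces have dimensions
`(dim V_0, dim V_1, dim V_2) = (2, 2, 1)` and `(dim V*_0, dim V*_1, dim V*_2) = (1, 2, 2)`.
In particular `dim V_0 ≠ dim V*_0`, so (c) fails. -/
theorem result (K : Type*) [Field K] (h2 : (2 : K) ≠ 0) :
    ∃ (A As : Module.End K (Fin 5 → K)) (θ θs : Fin (2 + 1) → K),
      IsHessenbergPair A As θ θs ∧
      (Module.finrank K (A.eigenspace (θ 0)) = 2 ∧ Module.finrank K (A.eigenspace (θ 1)) = 2 ∧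
        Module.finrank K (A.eigenspace (θ 2)) = 1) ∧
      (Module.finrank K (As.eigenspace (θs 0)) = 1 ∧ Module.finrank K (As.eigenspace (θs 1)) = 2 ∧
        Module.finrank K (As.eigenspace (θs 2)) = 2) :=
  ⟨A K, As K, θ, θ, isHessenbergPair h2, ⟨finrank_A0 h2, finrank_A1, finrank_A2 h2⟩,
    ⟨finrank_S0 h2, finrank_S1, finrank_S2⟩⟩

end Pool.Agent.Results.MP_d2cf4a_al.Counterexample
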